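import Pool.Agent.K1H99.CL.Est
import Pool.Agent.K1H99.CL.Fun
import Pool.Agent.Helper878.ERW.Main

/-!
# The critical excited random walk on `ℤ`: the `√n log n` limit fails under (IID), (POS₁), (UEL),
(MOM) and `δ = 1`

The counterexample has i.i.d. stacks with `H` cookies of strength `3/4` followed by cookies `1/2`,
where the law of `H` has mean `2` and extremely heavy sparse tails.  In a suitable sequence of
boxes the walk only sees stacks with truncated total drift `1 - 2^(-k) < 1`, so that along a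
subsequence it stays of order `√n` times a constant which is negligible compared with `log n`.

`Pool.H878.ERW.visits p j` is the number of visits of the path `p` to its current position up to
time `j`, `Pool.H878.ERW.stepProb w p j` the probability of the `j`-th step of the path `p` in the
cookie environment `w`, and `Pool.H878.ERW.IsERW μ env X` says that under `μ` the process `X` is
the excited random walk started at `0` in the random environment `env`: for all paths `p` and all
measurable sets `A` of environments, the probability that the environment is in `A` and that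
`X 0 = p 0, …, X n = p n` is the integral over `env ∈ A` of the product of the step probabilities.
-/

set_option autoImplicit false
open MeasureTheory ProbabilityTheory Filter Topology
open scoped ENNReal NNReal

namespace Pool.Agent.Results.MP_3ce60b_pr.CriticalLimitFails

open Pool.H878.ERW (IsERW partE1 ergodic_map)

/-! ## Weak convergence in `D[0,∞)` with the Skorokhod `J₁` topology -/

/-- càdlàg functions on `[0,∞)` -/
def Cadlag (x : ℝ≥0 → ℝ) : Prop :=
  ∀ t, ContinuousWithinAt x (Set.Ici t) t ∧ ∃ l, Tendsto x (𝓝[<] t) (𝓝 l)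

/-- convergence of the sequence `x` to `y` in the Skorokhod `J₁` topology of `D[0,∞)`: there are
time changes `lam n` (increasing bijections of `[0,∞)`) such that `lam n s → s` and
`x n (lam n s) → y s`, uniformly for `s` in bounded intervals -/
def J1Tendsto (x : ℕ → ℝ≥0 → ℝ) (y : ℝ≥0 → ℝ) : Prop :=
  ∃ lam : ℕ → ℝ≥0 ≃o ℝ≥0, ∀ T : ℝ≥0,
    TendstoUniformlyOn (fun n s => lam n s) (fun s => s) atTop (Set.Iic T) ∧
    TendstoUniformlyOn (fun n s => x n (lam n s)) y atTop (Set.Iic T)

/-- bounded functionals which are continuous on `D[0,∞)` for the `J₁` topology -/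
structure IsTest (F : (ℝ≥0 → ℝ) → ℝ) : Prop where
  bounded : ∃ C : ℝ, ∀ x, |F x| ≤ C
  cont : ∀ (x : ℕ → ℝ≥0 → ℝ) (y : ℝ≥0 → ℝ), (∀ n, Cadlag (x n)) → Cadlag y → J1Tendsto x y →
    Tendsto (fun n => F (x n)) atTop (𝓝 (F y))

/-- weak convergence of the laws of the processes `Y n` (under `μ`) to the law of the process `S`
(under `P'`), on `D[0,∞)` with the `J₁` topology -/
def ConvergesInLaw {Ω : Type} [MeasurableSpace Ω] (μ : Measure Ω) (Y : ℕ → Ω → ℝ≥0 → ℝ)
    {Ω' : Type} [MeasurableSpace Ω'] (P' : Measure Ω') (S : Ω' → ℝ≥0 → ℝ) : Prop :=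
  ∀ F, IsTest F → Tendsto (fun n => ∫ ω, F (Y n ω) ∂μ) atTop (𝓝 (∫ ω', F (S ω') ∂P'))

/-- (CL): for some `b > 0` the processes `t ↦ X_{⌊nt⌋} / (b √n log n)` converge in law to the
running maximum `t ↦ max_{s ≤ t} B(s)` of a standard Brownian motion `B` -/
def CL {Ω : Type} [MeasurableSpace Ω] (μ : Measure Ω) (X : ℕ → Ω → ℤ) : Prop :=
  ∃ b : ℝ, 0 < b ∧ ∃ (Ω' : Type) (_ : MeasurableSpace Ω') (P' : Measure Ω')
    (_ : IsProbabilityMeasure P') (B : ℝ≥0 → Ω' → ℝ), IsBrownianReal B P' ∧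
    ConvergesInLaw μ
      (fun n ω t => (X ⌊(n : ℝ) * (t : ℝ)⌋₊ ω : ℝ) / (b * Real.sqrt n * Real.log n))
      P' (fun ω' t => ⨆ s : Set.Iic t, B s ω')

/-! ## Conditions on the law `P` of the cookie environment

`e z i` is the `i`-th cookie at the site `z`, `i = 1, 2, …` (the value at `i = 0` is not used). -/

/-- (SE): the stacks are stationary and ergodic under the shift of `ℤ` -/
def SE (P : Measure (ℤ → ℕ → ℝ)) : Prop := Ergodic (fun (e : ℤ → ℕ → ℝ) (z : ℤ) => e (z + 1)) P

/-- (IID): the stacks are independent and identically distributed -/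
def IID (P : Measure (ℤ → ℕ → ℝ)) : Prop :=
  iIndepFun (fun (z : ℤ) (e : ℤ → ℕ → ℝ) => e z) P ∧
    ∀ z : ℤ, IdentDistrib (fun e : ℤ → ℕ → ℝ => e z) (fun e => e 0) P P

/-- (UEL) -/
def UEL (P : Measure (ℤ → ℕ → ℝ)) : Prop :=
  ∃ κ : ℝ, 0 < κ ∧ ∀ᵐ e ∂P, ∀ (z : ℤ) (i : ℕ), 1 ≤ i → κ ≤ e z i ∧ e z i ≤ 1 - κ

/-- (POS₁) -/
def POS (P : Measure (ℤ → ℕ → ℝ)) : Prop :=
  ∀ᵐ e ∂P, ∀ (z : ℤ) (i : ℕ), 1 ≤ i → 1 / 2 ≤ e z i

/-- `N_ε = sup {i ≥ 1 : |e 0 i - 1/2| ≥ ε}` with `sup ∅ = 0` -/
noncomputable def Neps (ε : ℝ) (e : ℤ → ℕ → ℝ) : ℝ≥0∞ :=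
  ⨆ (i : ℕ) (_ : 1 ≤ i ∧ ε ≤ |e 0 i - 1 / 2|), (i : ℝ≥0∞)

/-- (MOM): `E N_ε < ∞` for every `ε > 0` -/
def MOM (P : Measure (ℤ → ℕ → ℝ)) : Prop := ∀ ε : ℝ, 0 < ε → ∫⁻ e, Neps ε e ∂P < ⊤

/-- the drift parameter `δ = E ∑_{i ≥ 1} (2 e 0 i - 1)`, for laws with (POS₁) (all terms of the
series are then nonnegative) -/
noncomputable def delta (P : Measure (ℤ → ℕ → ℝ)) : ℝ≥0∞ :=
  ∫⁻ e, ∑' i : ℕ, ENNReal.ofReal (2 * e 0 (i + 1) - 1) ∂P

/-- `X` is, under `μ`, the excited random walk in the random environment `env` of law `P` -/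
structure IsWalk (P : Measure (ℤ → ℕ → ℝ)) {Ω : Type} [MeasurableSpace Ω] (μ : Measure Ω)
    (env : Ω → ℤ → ℕ → ℝ) (X : ℕ → Ω → ℤ) : Prop where
  prob : IsProbabilityMeasure μ
  meas_env : Measurable env
  meas_walk : ∀ n, Measurable (X n)
  range : ∀ ω z i, env ω z i ∈ Set.Icc (0 : ℝ) 1
  law_env : μ.map env = P
  walk : IsERW μ env X

/-! ## Proof -/

open Pool.Agent.K1H99.CL

theorem isTest_FF : IsTest FF where
  bounded := ⟨1, fun x => by rw [abs_of_nonneg (FF_nonneg x)]; exact FF_le_one x⟩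
  cont := fun x y _ _ h => by
    obtain ⟨lam, hlam⟩ := h
    exact FF_tendsto x y lam hlam

/-- one stack -/
noncomputable def stack (j : ℕ) : ℕ → ℝ := fun i => if i ≤ hs j then 3 / 4 else 1 / 2

theorem map_ev : PJ.map ev = Measure.infinitePi (fun _ : ℤ => km.map stack) := by
  have h := Measure.infinitePi_map_pi (μ := fun _ : ℤ => km) (f := fun _ => stack)
    (fun _ => measurable_of_countable stack)
  rw [← h]
  rfl

instance : IsProbabilityMeasure (km.map stack) :=
  Measure.isProbabilityMeasure_map (measurable_of_countable stack).aemeasurable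

instance : IsProbabilityMeasure (PJ.map ev) := Measure.isProbabilityMeasure_map meas_ev.aemeasurable

theorem se : SE (PJ.map ev) := by
  refine ergodic_map PJ (fun J z => J (z + 1)) ?_ ev meas_ev (fun J => rfl)
  have hinj : Function.Injective (fun z : ℤ => z + 1) := fun a b h => by simpa using h
  refine ⟨⟨Pool.Agent.R987.Bern.measurable_comp _, ?_⟩, ⟨fun s hs hinv => ?_⟩⟩
  · exact Pool.Agent.R987.Bern.map_comp km (fun z : ℤ => z + 1) hinj
  · have hz := Pool.Agent.R987.Bern.ergodic km (fun z : ℤ => z + 1) hinj ?_ hs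
      (ae_of_all _ fun x => ?_)
    · rw [Filter.eventuallyConst_set']
      rcases hz with h | h
      · left
        exact ae_eq_empty.2 h
      · right
        rw [ae_eq_univ]
        exact (prob_compl_eq_zero_iff hs).2 h
    · intro F
      have hit : ∀ (n : ℕ) (z : ℤ), (fun z : ℤ => z + 1)^[n] z = z + n := by
        intro n
        induction n with
        | zero => simp
        | succ n ih =>
          intro z
          rw [Function.iterate_succ_apply, ih]
          push_cast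
          ring
      obtain ⟨M, hM⟩ := (F.finite_toSet.bddAbove : BddAbove (F : Set ℤ))
      obtain ⟨m, hm⟩ := (F.finite_toSet.bddBelow : BddBelow (F : Set ℤ))
      refine ⟨(M - m + 1).toNat, fun i hi hi' => ?_⟩
      rw [hit] at hi'
      have h1 := hM hi'
      have h2 := hm hi
      have h3 := Int.self_le_toNat (M - m + 1)
      omega
    · conv_lhs => rw [← hinv]
      rfl

theorem iid_ev : IID (PJ.map ev) := by
  rw [map_ev]
  refine ⟨iIndepFun_infinitePi (X := fun _ => id) (fun _ => measurable_id), fun z => ?_⟩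
  refine ⟨(measurable_pi_apply z).aemeasurable, (measurable_pi_apply 0).aemeasurable, ?_⟩
  rw [(measurePreserving_eval_infinitePi (fun _ : ℤ => km.map stack) z).map_eq,
    (measurePreserving_eval_infinitePi (fun _ : ℤ => km.map stack) 0).map_eq]

theorem ae_ev {p : (ℤ → ℕ → ℝ) → Prop} (hp : MeasurableSet {e | p e}) (h : ∀ J, p (ev J)) :
    ∀ᵐ e ∂(PJ.map ev), p e := (ae_map_iff meas_ev.aemeasurable hp).2 (ae_of_all _ h)

theorem uel : UEL (PJ.map ev) := by
  refine ⟨1 / 4, by norm_num, ae_ev ?_ fun J z i _ => ⟨?_, ?_⟩⟩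
  · simp only [Set.ofPred_forall]
    refine MeasurableSet.iInter fun z => MeasurableSet.iInter fun i => MeasurableSet.iInter fun _ =>
      ?_
    exact (measurableSet_le measurable_const (meas_eval z i)).inter
      (measurableSet_le (meas_eval z i) measurable_const)
  · linarith [ev_low J z i]
  · linarith [ev_high J z i]

theorem pos : POS (PJ.map ev) := by
  refine ae_ev ?_ fun J z i _ => ev_low J z i
  simp only [Set.ofPred_forall]
  exact MeasurableSet.iInter fun z => MeasurableSet.iInter fun i => MeasurableSet.iInter fun _ =>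
    measurableSet_le measurable_const (meas_eval z i)

theorem lint_hs : ∫⁻ J, (hs (J 0) : ℝ≥0∞) ∂PJ = 2 := by
  rw [← km_hs, ← (mp_eval 0).map_eq, lintegral_map (measurable_of_countable _)
    (measurable_pi_apply 0)]

theorem mom : MOM (PJ.map ev) := by
  intro ε hε
  refine lt_of_le_of_lt (lintegral_map_le _ _) ?_
  refine lt_of_le_of_lt (b := (2 : ℝ≥0∞)) ?_ (by norm_num)
  rw [← lint_hs]
  refine lintegral_mono fun J => ?_
  refine iSup_le fun i => iSup_le fun hi => ?_
  have h1 : i ≤ hs (J 0) := by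
    by_contra hcon
    have h2 : ev J 0 i = 1 / 2 := by
      unfold ev
      rw [if_neg hcon]
    rw [h2] at hi
    simp at hi
    linarith [hi.2]
  exact_mod_cast h1

theorem delta_ev : delta (PJ.map ev) = 1 := by
  unfold delta
  rw [lintegral_map _ meas_ev]
  · have h1 : ∀ J, ∑' i : ℕ, ENNReal.ofReal (2 * ev J 0 (i + 1) - 1) =
        2⁻¹ * (hs (J 0) : ℝ≥0∞) := by
      intro J
      have h2 : ∀ i : ℕ, ENNReal.ofReal (2 * ev J 0 (i + 1) - 1) =
          if i < hs (J 0) then 2⁻¹ else 0 := by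
        intro i
        unfold ev
        by_cases h : i + 1 ≤ hs (J 0)
        · rw [if_pos h, if_pos (by omega)]
          rw [show (2 * (3 / 4 : ℝ) - 1) = 2⁻¹ by norm_num, ENNReal.ofReal_inv_of_pos (by norm_num)]
          simp
        · rw [if_neg h, if_neg (by omega)]
          norm_num
      simp only [h2]
      rw [tsum_eq_sum (s := Finset.range (hs (J 0)))]
      · rw [Finset.sum_congr rfl (g := fun _ => (2⁻¹ : ℝ≥0∞))
          (fun i hi => if_pos (Finset.mem_range.1 hi))]
        rw [Finset.sum_const, Finset.card_range, nsmul_eq_mul, mul_comm]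
      · intro i hi
        rw [if_neg (by simpa using hi)]
    simp only [h1]
    have hm : Measurable fun J : ℤ → ℕ => (hs (J 0) : ℝ≥0∞) :=
      (measurable_of_countable (fun j : ℕ => (hs j : ℝ≥0∞))).comp (measurable_pi_apply 0)
    rw [lintegral_const_mul _ hm, lint_hs]
    exact ENNReal.inv_mul_cancel (by norm_num) (by norm_num)
  · exact Measurable.tsum fun i =>
      (((meas_eval 0 (i + 1)).const_mul 2).sub_const 1).ennreal_ofReal

theorem exists_walk : ∃ (Ω : Type) (_ : MeasurableSpace Ω) (μ : Measure Ω)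
    (env : Ω → ℤ → ℕ → ℝ) (X : ℕ → Ω → ℤ), IsWalk (PJ.map ev) μ env X := by
  have h01 : ∀ J z i, ev J z i ∈ Set.Icc (0 : ℝ) 1 := fun J z i =>
    ⟨by linarith [ev_low J z i], by linarith [ev_high J z i]⟩
  obtain ⟨S, mS, ν, hν, X, hX, hlaw⟩ := partE1 PJ ev meas_ev h01
  refine ⟨(ℤ → ℕ) × S, inferInstance, PJ.prod ν, fun w => ev w.1, X, ?_⟩
  exact
    { prob := inferInstance
      meas_env := meas_ev.comp measurable_fst
      meas_walk := hX
      range := fun w z i => h01 w.1 z i
      law_env := by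
        have h1 : (fun w : (ℤ → ℕ) × S => ev w.1) = ev ∘ Prod.fst := rfl
        rw [h1, ← Measure.map_map meas_ev measurable_fst, Measure.map_fst_prod]
        simp
      walk := hlaw }

theorem NN_large (k : ℕ) : 2 ^ (k + 2) * (k : ℝ) ^ 2 ≤ Real.log ((NN k ^ 2 : ℕ) : ℝ) := by
  have h1 : (3 : ℝ) ^ (2 ^ (k + 1) * k ^ 2) ≤ NN k := by
    unfold NN Nf
    push_cast
    have h2 : (1:ℝ) ≤ 2 ^ k * (hs k : ℝ) + 1 := by
      have : (0:ℝ) ≤ 2 ^ k * (hs k : ℝ) := by positivity
      linarith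
    have h3 : (0:ℝ) < (3 : ℝ) ^ (2 ^ (k + 1) * k ^ 2) := by positivity
    nlinarith
  push_cast
  rw [Real.log_pow]
  have h4 : Real.log ((3 : ℝ) ^ (2 ^ (k + 1) * k ^ 2)) ≤ Real.log (NN k) :=
    Real.log_le_log (by positivity) h1
  rw [Real.log_pow] at h4
  have h5 : (1:ℝ) ≤ Real.log 3 := by
    rw [Real.le_log_iff_exp_le (by norm_num)]
    linarith [Real.exp_one_lt_d9]
  push_cast at h4 ⊢
  have h6 : (0:ℝ) ≤ 2 ^ (k + 1) * (k:ℝ) ^ 2 := by positivity
  have h7 : (2:ℝ) ^ (k + 2) * (k:ℝ) ^ 2 = 2 * (2 ^ (k + 1) * (k:ℝ) ^ 2) := by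
    rw [pow_succ 2 (k + 1)]; ring
  rw [h7]
  nlinarith

theorem NN_tendsto : Tendsto (fun k => NN k ^ 2) atTop atTop := by
  refine tendsto_atTop_mono (f := id) (fun k => ?_) tendsto_id
  have h1 : k ≤ 3 ^ (2 ^ (k + 1) * k ^ 2) := by
    rcases Nat.eq_zero_or_pos k with rfl | hk
    · simp
    · calc k ≤ 2 ^ (k + 1) * k ^ 2 := by
            have : 1 ≤ 2 ^ (k + 1) := Nat.one_le_two_pow
            nlinarith
        _ ≤ 3 ^ (2 ^ (k + 1) * k ^ 2) := (Nat.lt_pow_self (by norm_num)).le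
  have h2 : 3 ^ (2 ^ (k + 1) * k ^ 2) ≤ NN k := by
    unfold NN Nf
    exact Nat.le_mul_of_pos_left _ (by omega)
  have h3 : NN k ≤ NN k ^ 2 := by
    have := NN_pos k
    nlinarith
  exact h1.trans (h2.trans h3)

theorem upper {Ω : Type} [MeasurableSpace Ω] {μ : Measure Ω} {env : Ω → ℤ → ℕ → ℝ}
    {X : ℕ → Ω → ℤ} (h : IsWalk (PJ.map ev) μ env X) (b : ℝ) (hb : 0 < b) (k : ℕ) (hk : 1 ≤ k) :
    ∫ ω, FF (fun t => (X ⌊((NN k ^ 2 : ℕ) : ℝ) * (t : ℝ)⌋₊ ω : ℝ) /
      (b * Real.sqrt ((NN k ^ 2 : ℕ) : ℝ) * Real.log ((NN k ^ 2 : ℕ) : ℝ))) ∂μ ≤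
      (1 / b + 3) * (1 / k) := by
  have := h.prob
  set n : ℕ := NN k ^ 2 with hn
  set c : ℝ := b * Real.sqrt (n : ℝ) * Real.log (n : ℝ) with hc
  set r : ℕ := 2 ^ (k + 2) * (k * NN k) with hr
  set T : Ω → ℝ := fun ω => FF (fun t => (X ⌊(n : ℝ) * (t : ℝ)⌋₊ ω : ℝ) / c) with hT
  have hkR : (0:ℝ) < k := by exact_mod_cast (by omega : 0 < k)
  have hNR : (0:ℝ) < NN k := by exact_mod_cast NN_pos k
  have hlog := NN_large k
  rw [← hn] at hlog
  have hsq : Real.sqrt (n:ℝ) = NN k := by
    rw [hn]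
    push_cast
    exact Real.sqrt_sq hNR.le
  have hlogpos : 0 < Real.log (n:ℝ) := lt_of_lt_of_le (by positivity) hlog
  have hcpos : 0 < c := by
    rw [hc, hsq]
    positivity
  have hrc : (r:ℝ) / c ≤ 1 / b * (1 / k) := by
    rw [div_mul_div_comm, div_le_div_iff₀ hcpos (by positivity), hc, hsq, hr]
    push_cast
    have h1 : (2:ℝ) ^ (k + 2) * (k * NN k) * (b * k) =
        (b * NN k) * (2 ^ (k + 2) * (k:ℝ) ^ 2) := by ring
    rw [h1, one_mul, one_mul]
    gcongr
  set E : Set Ω := {ω | ∃ m ≤ n, (r : ℤ) ≤ |X m ω|} with hE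
  have hEm : MeasurableSet E := by
    have : E = ⋃ m ∈ Finset.range (n + 1), {ω | (r : ℤ) ≤ |X m ω|} := by
      ext ω
      simp only [hE, Set.mem_ofPred_eq, Set.mem_iUnion, Finset.mem_range, exists_prop,
        Nat.lt_succ_iff]
    rw [this]
    refine Finset.measurableSet_biUnion _ fun m _ => ?_
    exact measurableSet_le measurable_const
      ((measurable_of_countable (fun z : ℤ => |z|)).comp (h.meas_walk m))
  have hest := main_est h.meas_env h.meas_walk h.range h.walk h.law_env k hk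
  have hreal : μ.real E ≤ 3 / k := by
    rw [measureReal_def]
    refine ENNReal.toReal_le_of_le_ofReal (by positivity) ?_
    exact hest
  have hle : ∀ ω, T ω ≤ (r:ℝ) / c + E.indicator (fun _ => (1:ℝ)) ω := by
    intro ω
    by_cases hω : ω ∈ E
    · rw [Set.indicator_of_mem hω]
      have h1 : T ω ≤ 1 := FF_le_one _
      have h2 : 0 ≤ (r:ℝ) / c := by positivity
      linarith
    · rw [Set.indicator_of_notMem hω, add_zero]
      refine FF_le _ _ (by positivity) fun s hs => ?_
      rw [abs_div, abs_of_pos hcpos]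
      gcongr
      have hfl : ⌊(n : ℝ) * (s : ℝ)⌋₊ ≤ n := by
        apply Nat.floor_le_of_le
        have : (n:ℝ) * s ≤ n * 1 := by gcongr
        linarith
      have h3 : ¬ (r : ℤ) ≤ |X ⌊(n : ℝ) * (s : ℝ)⌋₊ ω| := fun h4 => hω ⟨_, hfl, h4⟩
      push Not at h3
      have h5 : |X ⌊(n : ℝ) * (s : ℝ)⌋₊ ω| ≤ (r : ℤ) := h3.le
      exact_mod_cast h5
  by_cases hint : Integrable T μ
  · have h1 : ∫ ω, T ω ∂μ ≤ ∫ ω, ((r:ℝ) / c + E.indicator (fun _ => (1:ℝ)) ω) ∂μ :=
      integral_mono hint ((integrable_const _).add ((integrable_const _).indicator hEm)) hle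
    refine h1.trans ?_
    rw [integral_add (integrable_const _) ((integrable_const _).indicator hEm),
      integral_indicator_const _ hEm]
    simp only [integral_const, probReal_univ, smul_eq_mul, one_mul, mul_one]
    have : (1 / b + 3) * (1 / (k:ℝ)) = 1 / b * (1 / k) + 3 / k := by ring
    rw [this]
    linarith
  · rw [integral_undef hint]
    positivity

/-- **The critical limit theorem (CL) fails under (SE), (POS₁), (UEL), (MOM), `δ = 1`** (negative
answer to Q1, hence to Q2), even with i.i.d. stacks: there is a law `P` of cookie environments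
which satisfies (SE), (IID), (UEL), (POS₁), (MOM) and `δ = 1`, for which the excited random walk
exists, and for which (CL) fails for every excited random walk `X` in an environment of law `P`. -/
theorem result : ∃ P : Measure (ℤ → ℕ → ℝ), IsProbabilityMeasure P ∧
    SE P ∧ IID P ∧ UEL P ∧ POS P ∧ MOM P ∧ delta P = 1 ∧
    (∃ (Ω : Type) (_ : MeasurableSpace Ω) (μ : Measure Ω) (env : Ω → ℤ → ℕ → ℝ) (X : ℕ → Ω → ℤ),
      IsWalk P μ env X) ∧
    ∀ (Ω : Type) (_ : MeasurableSpace Ω) (μ : Measure Ω) (env : Ω → ℤ → ℕ → ℝ) (X : ℕ → Ω → ℤ),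
      IsWalk P μ env X → ¬ CL μ X := by
  refine ⟨PJ.map ev, inferInstance, se, iid_ev, uel, pos, mom, delta_ev, exists_walk, ?_⟩
  rintro Ω _ μ env X h ⟨b, hb, Ω', _, P', _, B, hB, hconv⟩
  have h1 := hconv FF isTest_FF
  have h2 := h1.comp NN_tendsto
  have hpos := FF_pos P' B hB
  have h3 : Tendsto (fun k : ℕ => (1 / b + 3) * (1 / (k:ℝ))) atTop (𝓝 ((1 / b + 3) * 0)) :=
    tendsto_one_div_atTop_nhds_zero_nat.const_mul _
  rw [mul_zero] at h3
  have h4 := le_of_tendsto_of_tendsto h2 h3 (by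
    filter_upwards [eventually_ge_atTop 1] with k hk
    exact upper h b hb k hk)
  linarith

end Pool.Agent.Results.MP_3ce60b_pr.CriticalLimitFails
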